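import Pool.Agent.H174.GP.StI

set_option autoImplicit false

open MeasureTheory ProbabilityTheory Finset Filter Topology
open scoped NNReal

namespace Pool.Agent.H909.GP174

open Pool.Agent.H174.GP

lemma sub_one : HasSubgaussianMGF (fun x : ℝ => x) 1 (gaussianReal 0 1) where
  integrable_exp_mul t := integrable_exp_mul_gaussianReal t
  mgf_le t := by
    have h := congrFun (mgf_fun_id_gaussianReal (μ := 0) (v := 1)) t
    rw [h]
    simp

lemma sub_coord (j : ℕ) : HasSubgaussianMGF (fun z : ℕ → ℝ => z j) 1 GA := by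
  have hmp : MeasurePreserving (Function.eval j) GA (gaussianReal 0 1) :=
    measurePreserving_eval_infinitePi (fun _ : ℕ => gaussianReal 0 1) j
  have h : HasSubgaussianMGF (fun x : ℝ => x) 1 (Measure.map (Function.eval j) GA) := by
    rw [hmp.map_eq]
    exact sub_one
  exact HasSubgaussianMGF.of_map hmp.measurable.aemeasurable h

lemma indep_coord : iIndepFun (fun (j : ℕ) (z : ℕ → ℝ) => z j) GA :=
  iIndepFun_infinitePi (P := fun _ : ℕ => gaussianReal 0 1) (X := fun _ x => x) (fun _ => measurable_id)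

lemma sub_sum (a b : ℕ) :
    HasSubgaussianMGF (fun z : ℕ → ℝ => ∑ j ∈ Finset.Ioc a b, z j) (∑ _j ∈ Finset.Ioc a b, (1 : ℝ≥0)) GA :=
  HasSubgaussianMGF.sum_of_iIndepFun indep_coord (c := fun _ => 1) (s := Finset.Ioc a b) (fun j _ => sub_coord j)

lemma tail (a b : ℕ) (hab : a < b) (t : ℝ) (ht : 0 ≤ t) :
    GA.real {z : ℕ → ℝ | t ≤ |∑ j ∈ Finset.Ioc a b, z j|} ≤ 2 * Real.exp (-(t ^ 2 / (2 * ((b : ℝ) - a)))) := by
  have hc : ((∑ _j ∈ Finset.Ioc a b, (1 : ℝ≥0) : ℝ≥0) : ℝ) = (b : ℝ) - a := by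
    rw [Finset.sum_const, Nat.card_Ioc, nsmul_eq_mul, mul_one, NNReal.coe_natCast, Nat.cast_sub hab.le]
  have h1 := (sub_sum a b).measure_ge_le ht
  have h2 := (sub_sum a b).neg.measure_ge_le ht
  rw [hc, neg_div] at h1 h2
  have h3 : {z : ℕ → ℝ | t ≤ |∑ j ∈ Finset.Ioc a b, z j|} ⊆
      {z : ℕ → ℝ | t ≤ ∑ j ∈ Finset.Ioc a b, z j} ∪
        {z : ℕ → ℝ | t ≤ (-fun z : ℕ → ℝ => ∑ j ∈ Finset.Ioc a b, z j) z} := by
    intro z hz
    have hz' : t ≤ |∑ j ∈ Finset.Ioc a b, z j| := hz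
    rcases le_abs.1 hz' with h | h
    · exact Or.inl h
    · exact Or.inr h
  refine (measureReal_mono h3).trans ((measureReal_union_le _ _).trans ?_)
  linarith

lemma S_sub (z : ℕ → ℝ) {a l : ℕ} (h : a ≤ l) : S z l - S z a = ∑ j ∈ Finset.Ioc a l, z j := by
  unfold S
  have e : ∀ k : ℕ, Finset.Icc 1 k = Finset.Ioc 0 k := by
    intro k
    ext i
    simp only [Finset.mem_Icc, Finset.mem_Ioc]
    omega
  rw [e l, e a, ← Finset.sum_Ioc_consecutive (fun i => z i) (Nat.zero_le a) h]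
  ring

lemma meas_S (l : ℕ) : Measurable (fun z : ℕ → ℝ => S z l) := by
  unfold S
  exact Finset.measurable_sum _ (fun i _ => measurable_pi_apply i)

theorem gp_gmaxs (h1 : S_Gmap) (h2 : S_GPP) (h3 : S_levy) : Pool.Agent.H174.GP.S_gmaxS := by
  intro a b t hab ht
  obtain ⟨G, -, hodd, hGm, hmap⟩ := h1
  have hGA := h2 G hGm hmap
  have hT : Measurable (fun (ω : ℕ → ℝ) (j : ℕ) => G (ω j)) :=
    measurable_pi_lambda _ (fun j => hGm.comp (measurable_pi_apply j))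
  have hA : MeasurableSet {z : ℕ → ℝ | ∃ l ∈ Finset.Icc a b, t ≤ |S z l - S z a|} := by
    have e : {z : ℕ → ℝ | ∃ l ∈ Finset.Icc a b, t ≤ |S z l - S z a|} =
        ⋃ l ∈ Finset.Icc a b, {z : ℕ → ℝ | t ≤ |S z l - S z a|} := by
      ext z
      simp
    rw [e]
    refine Finset.measurableSet_biUnion _ (fun l _ => ?_)
    exact measurableSet_le measurable_const ((meas_S l).sub (meas_S a)).abs
  have hB : MeasurableSet {z : ℕ → ℝ | t ≤ |∑ j ∈ Finset.Ioc a b, z j|} :=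
    measurableSet_le measurable_const (Finset.measurable_sum _ (fun i _ => measurable_pi_apply i)).abs
  have k1 : GA.real {z : ℕ → ℝ | ∃ l ∈ Finset.Icc a b, t ≤ |S z l - S z a|} =
      PP.real {ω | ∃ l ∈ Finset.Icc a b, t ≤ |∑ j ∈ Finset.Ioc a l, G (ω j)|} := by
    rw [← hGA, map_measureReal_apply hT hA]
    congr 1
    ext ω
    constructor
    · rintro ⟨l, hl, h⟩
      refine ⟨l, hl, ?_⟩
      rw [S_sub _ (Finset.mem_Icc.1 hl).1] at h
      exact h
    · rintro ⟨l, hl, h⟩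
      refine ⟨l, hl, ?_⟩
      rw [S_sub _ (Finset.mem_Icc.1 hl).1]
      exact h
  have k2 : GA.real {z : ℕ → ℝ | t ≤ |∑ j ∈ Finset.Ioc a b, z j|} =
      PP.real {ω | t ≤ |∑ j ∈ Finset.Ioc a b, G (ω j)|} := by
    rw [← hGA, map_measureReal_apply hT hB]
    rfl
  have k3 := h3 a b (fun _ => G) t hab.le (fun _ _ => hGm) (fun _ _ => hodd)
  have k4 := tail a b hab t ht
  rw [k1]
  refine k3.trans ?_
  rw [← k2]
  linarith

end Pool.Agent.H909.GP174
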